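import Pool.Agent.Helper99.WP.GoalsE

/-! Packet WP DCY: exponential decay. -/

open Finset

namespace Pool.Agent.Helper86.WP

open Pool.Agent.Helper99.WP Pool.Agent.Helper99.ERW

theorem DCY_core (hTRM : TRM_stmt) (hKEY : KEY_stmt) (hPR1 : PR1_stmt) (hLN1 : LN1_stmt)
    (hGCM : GCM_stmt) (hEXT : EXT_stmt) (d : ℕ) (κ : ℝ) (ω : Env d) (hκ : 0 < κ)
    (hω : Okk κ ω) (R N : ℕ) (Λ : Finset (Site d)) (hΛ : Λ ⊆ Q R (0 : Site d)) (x : Λ) (i : ℕ) :
    vis (arrW ω Λ) N x i ≤ (1 - 1 / ((d : ℝ) * (R + 1) ^ 2)) ^ i := by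
  set W := arrW ω Λ with hW
  have hL := fun n hn => hLN1 d κ ω Λ N n hκ hω hn
  have hIsW : IsW W := (hL (fun _ => 0) (fun _ => Nat.zero_le _)).2.1
  have hDD : ∀ n : Λ → ℕ, (∀ y, n y ≤ N) → DD (rowW W N n) ≠ 0 := fun n hn => (hL n hn).2.2.1
  obtain ⟨hprb0, hprb1, hvis⟩ := hPR1 Λ W N hIsW
  have hnst : ∀ (a : Λ → Fin N → Option Λ) (y : Λ), nst (ext a) y ≤ N := fun a =>
    ((hTRM Λ N).2.2.2 a).2.2
  set C : ℝ := (d : ℝ) * (R + 1) ^ 2 with hC
  have hell : Ell κ (pst ω Λ fun _ => 0) := (hL (fun _ => 0) (fun _ => Nat.zero_le _)).1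
  have hd1 : 1 ≤ d := by
    rcases Nat.eq_zero_or_pos d with h0 | h0
    · subst h0
      have h1 := (hell (0 : Site 0)).2
      simp at h1
    · exact h0
  have hC1 : 1 ≤ C := by
    have h1 : (1 : ℝ) ≤ d := by exact_mod_cast hd1
    have h2 : (1 : ℝ) ≤ ((R : ℝ) + 1) ^ 2 := by
      have : (0 : ℝ) ≤ R := Nat.cast_nonneg R
      nlinarith
    rw [hC]
    nlinarith
  have hC0 : 0 < C := lt_of_lt_of_le one_pos hC1
  have hG : ∀ n : Λ → ℕ, (∀ y, n y ≤ N) → Gmat (rowW W N n) x x ≤ C := by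
    intro n hn
    obtain ⟨he, _, _, h3⟩ := hL n hn
    have h4 := (h3 x).2.1
    have h5 := (hGCM d κ (pst ω Λ n) hκ he Λ).2.2.1 (ind {(x : Site d)}) (fun _ => 1)
      (fun z _ => by unfold ind; split_ifs <;> norm_num) x
    have h6 := (hEXT d κ (pst ω Λ n) hκ he R (0 : Site d)).1 Λ hΛ x
    exact h4.trans (h5.trans h6)
  have hstep : ∀ i, vis W N x i ≤ C * (vis W N x i - vis W N x (i + 1)) := by
    intro i
    have h1 : vis W N x i - vis W N x (i + 1) = ∑ a : Λ → Fin N → Option Λ, prb W N a *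
        if nst (ext a) x = i then (1 : ℝ) else 0 := by
      unfold vis
      rw [← Finset.sum_sub_distrib]
      refine Finset.sum_congr rfl fun a _ => ?_
      rw [← mul_sub]
      congr 1
      by_cases h2 : nst (ext a) x = i
      · rw [if_pos h2, if_pos (by omega), if_neg (by omega)]
        ring
      · rw [if_neg h2]
        by_cases h3 : i ≤ nst (ext a) x
        · rw [if_pos h3, if_pos (by omega)]
          ring
        · rw [if_neg h3, if_neg (by omega)]
          ring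
    rw [h1, Finset.mul_sum, hKEY Λ W N x i hIsW hDD]
    refine Finset.sum_le_sum fun a _ => ?_
    by_cases h2 : nst (ext a) x = i
    · rw [if_pos h2, if_pos h2]
      have h3 := hG (nst (ext a)) (hnst a)
      have h4 := hprb0 a
      nlinarith
    · rw [if_neg h2, if_neg h2]
      simp
  have hmain : ∀ i, vis W N x i ≤ (1 - 1 / C) ^ i := by
    intro i
    induction i with
    | zero => rw [(hvis x).1, pow_zero]
    | succ i ih =>
      have h1 := hstep i
      have h2 : vis W N x (i + 1) ≤ (1 - 1 / C) * vis W N x i := by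
        have h3 : C * vis W N x (i + 1) ≤ (C - 1) * vis W N x i := by linarith
        have h4 : (1 - 1 / C) * vis W N x i = ((C - 1) * vis W N x i) / C := by
          field_simp
        rw [h4, le_div_iff₀ hC0]
        linarith
      have h5 : 0 ≤ 1 - 1 / C := by
        rw [sub_nonneg, div_le_one hC0]
        exact hC1
      calc vis W N x (i + 1) ≤ (1 - 1 / C) * vis W N x i := h2
        _ ≤ (1 - 1 / C) * (1 - 1 / C) ^ i := mul_le_mul_of_nonneg_left ih h5
        _ = (1 - 1 / C) ^ (i + 1) := by ring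
  exact hmain i

theorem DCY (hTRM : TRM_stmt) (hKEY : KEY_stmt) (hPR1 : PR1_stmt) (hLN1 : LN1_stmt)
    (hGCM : GCM_stmt) (hEXT : EXT_stmt) : DCY_stmt := by
  intro d κ ω hκ hω R N x i _
  exact DCY_core hTRM hKEY hPR1 hLN1 hGCM hEXT d κ ω hκ hω R N (Q R 0) (Finset.Subset.refl _) x i

end Pool.Agent.Helper86.WP
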