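import Pool.Agent.Helper99.WP.GoalsK

/-! Packet WP QQQ: cubes. -/

open Finset

namespace Pool.Agent.Helper86.WP

open Pool.Agent.Helper99.WP Pool.Agent.Helper99.ERW

theorem mem_Q {d : ℕ} (r : ℕ) (y z : Site d) : z ∈ Q r y ↔ ∀ l, |z l - y l| ≤ (r : ℤ) := by
  unfold Q
  rw [Finset.mem_Icc, Pi.le_def, Pi.le_def, ← forall_and]
  refine forall_congr' fun l => ?_
  rw [abs_le]
  constructor
  · rintro ⟨h1, h2⟩
    constructor <;> linarith
  · rintro ⟨h1, h2⟩
    constructor <;> linarith

theorem QQQ : QQQ_stmt := by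
  intro d
  refine ⟨mem_Q, ?_, ?_, ?_, ?_, ?_⟩
  · intro r y
    unfold Q
    rw [Pi.card_Icc]
    have h1 : ∀ l : Fin d, (Finset.Icc (y l - (r : ℤ)) (y l + (r : ℤ))).card = 2 * r + 1 := by
      intro l
      rw [Int.card_Icc]
      omega
    rw [Finset.prod_congr rfl fun l _ => h1 l]
    simp
  · intro r y z hz l
    rw [mem_Q] at hz
    rw [mem_Q, mem_Q, ← forall_and]
    intro k
    have h1 := hz k
    have h2 : |ev l k| ≤ 1 := by
      unfold ev
      by_cases hk : k = l
      · subst hk; simp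
      · simp [Pi.single_eq_of_ne hk]
    simp only [Pi.add_apply, Pi.sub_apply]
    rw [abs_le] at h1 h2
    push_cast
    constructor
    · rw [abs_le]; constructor <;> linarith [h1.1, h1.2, h2.1, h2.2]
    · rw [abs_le]; constructor <;> linarith [h1.1, h1.2, h2.1, h2.2]
  · intro r y z
    rw [mem_Q, mem_Q]
    refine forall_congr' fun l => ?_
    rw [abs_sub_comm]
  · intro r s x y hx z hz
    rw [mem_Q] at hx hz ⊢
    intro l
    have h1 := hx l
    have h2 := hz l
    rw [abs_le] at h1 h2 ⊢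
    push_cast
    constructor <;> linarith [h1.1, h1.2, h2.1, h2.2]
  · intro r s y hrs z hz
    rw [mem_Q] at hz ⊢
    intro l
    exact (hz l).trans (by exact_mod_cast hrs)

end Pool.Agent.Helper86.WP
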